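import Mathlib

set_option autoImplicit false

/-!
# Edge isoperimetry in the Cayley graph of the integers with generators 1 and 8

`A T k` is the set of starting points of the maximal progressions of difference `k` in the finite
set `T` of integers. The edge boundary of `T` in the Cayley graph of `ℤ` with generators `1`, `8` is
`2 (|A T 1| + |A T 8|)`. If `T` does not contain `8` consecutive integers, then
`|T| ≤ |A T 1| * |A T 8|`, otherwise `|A T 8| ≥ 8`.
-/

namespace Pool.Agent.U444.Nest

open Finset

/-- starting points of the runs of difference `k` -/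
def A (T : Finset ℤ) (k : ℤ) : Finset ℤ := T.filter (fun x => x - k ∉ T)

lemma exists_start (T : Finset ℤ) (k : ℤ) (hk : 0 < k) (x : ℤ) (hx : x ∈ T) :
    ∃ s ∈ A T k, ∃ j : ℕ, x = s + k * j ∧ ∀ i : ℕ, i ≤ j → s + k * i ∈ T := by
  obtain ⟨m, hm⟩ : ∃ m : ℤ, ∀ y ∈ T, m ≤ y := by
    refine ⟨T.min' ⟨x, hx⟩, fun y hy => T.min'_le y hy⟩
  obtain ⟨N, hN⟩ : ∃ N : ℕ, x - m ≤ N := ⟨(x - m).toNat, Int.self_le_toNat _⟩
  induction N generalizing x with
  | zero =>
    refine ⟨x, ?_, 0, by simp, ?_⟩
    · rw [A, mem_filter]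
      refine ⟨hx, fun h => ?_⟩
      have := hm _ h
      push_cast at hN
      omega
    · intro i hi
      have : i = 0 := by omega
      subst this
      simpa using hx
  | succ N ih =>
    by_cases h : x - k ∈ T
    · obtain ⟨s, hs, j, hj, hi⟩ := ih (x - k) h (by push_cast at hN; omega)
      refine ⟨s, hs, j + 1, ?_, ?_⟩
      · push_cast
        linarith
      · intro i hij
        rcases Nat.lt_or_ge j i with h1 | h1
        · have : i = j + 1 := by omega
          subst this
          have e : s + k * ((j + 1 : ℕ) : ℤ) = x := by push_cast; linarith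
          rw [e]
          exact hx
        · exact hi i h1
    · refine ⟨x, ?_, 0, by simp, ?_⟩
      · rw [A, mem_filter]
        exact ⟨hx, h⟩
      · intro i hi
        have : i = 0 := by omega
        subst this
        simpa using hx

/-- a set that contains eight consecutive integers has at least eight starting points -/
lemma eight (T : Finset ℤ) (x : ℤ) (h : ∀ i : ℤ, 0 ≤ i → i < 8 → x + i ∈ T) :
    8 ≤ (A T 8).card := by
  have h1 : ∀ i : Fin 8, ∃ s ∈ A T 8, ∃ j : ℕ, x + (i : ℕ) = s + 8 * j := by
    intro i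
    have hi := i.isLt
    obtain ⟨s, hs, j, hj, -⟩ := exists_start T 8 (by norm_num) (x + (i : ℕ))
      (h _ (by omega) (by omega))
    exact ⟨s, hs, j, hj⟩
  choose s hs j hj using h1
  have hinj : Function.Injective s := by
    intro a b hab
    have ha := hj a
    have hb := hj b
    rw [hab] at ha
    have h3 := a.isLt
    have h4 := b.isLt
    apply Fin.ext
    omega
  have : (univ.image s).card = 8 := by
    rw [card_image_of_injective _ hinj]
    simp
  rw [← this]
  apply card_le_card
  intro y hy
  obtain ⟨i, -, rfl⟩ := mem_image.1 hy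
  exact hs i

/-- a set without eight consecutive integers -/
lemma prod_le (T : Finset ℤ) (h : ∀ x : ℤ, ∃ i : ℤ, 0 ≤ i ∧ i < 8 ∧ x + i ∉ T) :
    T.card ≤ (A T 1).card * (A T 8).card := by
  have h1 : ∀ x : T, ∃ s ∈ A T 1, ∃ j : ℕ, (x : ℤ) = s + 1 * j ∧ ∀ i : ℕ, i ≤ j → s + 1 * i ∈ T :=
    fun x => exists_start T 1 (by norm_num) x x.2
  have h8 : ∀ x : T, ∃ s ∈ A T 8, ∃ j : ℕ, (x : ℤ) = s + 8 * j ∧ ∀ i : ℕ, i ≤ j → s + 8 * i ∈ T :=
    fun x => exists_start T 8 (by norm_num) x x.2
  choose s hs j hj hsj using h1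
  choose t ht l hl htl using h8
  have key : ∀ x y : T, s x = s y → t x = t y → (x : ℤ) ≤ y → x = y := by
    intro x y h1 h2 h3
    have a1 := hl x
    have a2 := hl y
    have a3 := hj x
    have a4 := hj y
    rw [h2] at a1
    rw [h1] at a3
    by_contra hne
    have hne' : (x : ℤ) ≠ y := fun h => hne (Subtype.ext h)
    obtain ⟨i, hi0, hi8, hi⟩ := h x
    apply hi
    have h5 : (x : ℤ) + i ≤ y := by omega
    obtain ⟨n, hn⟩ : ∃ n : ℕ, (x : ℤ) + i = s y + 1 * n := ⟨(x + i - s y).toNat, by omega⟩
    rw [hn]
    apply hsj y n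
    omega
  have hcard : T.card = (T.attach.image (fun x => (s x, t x))).card := by
    rw [card_image_of_injective, card_attach]
    intro x y hxy
    simp only [Prod.mk.injEq] at hxy
    rcases le_total (x : ℤ) y with h3 | h3
    · exact key x y hxy.1 hxy.2 h3
    · exact (key y x hxy.1.symm hxy.2.symm h3).symm
  rw [hcard, ← card_product]
  apply card_le_card
  intro p hp
  obtain ⟨x, -, rfl⟩ := mem_image.1 hp
  exact mem_product.2 ⟨hs x, ht x⟩

/-- a set of 21 integers with at most 9 starting points is an interval -/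
lemma big (T : Finset ℤ) (hT : T.card = 21) (h : (A T 1).card + (A T 8).card ≤ 9) :
    ∃ s : ℤ, ∀ x ∈ T, s ≤ x ∧ x ≤ s + 20 := by
  have hne : T.Nonempty := by rw [← card_pos]; omega
  obtain ⟨x0, hx0⟩ := hne
  have hpos : 1 ≤ (A T 1).card := by
    obtain ⟨s, hs, -⟩ := exists_start T 1 (by norm_num) x0 hx0
    exact card_pos.2 ⟨s, hs⟩
  by_cases h8 : ∃ x : ℤ, ∀ i : ℤ, 0 ≤ i → i < 8 → x + i ∈ T
  · obtain ⟨x, hx⟩ := h8
    have h9 := eight T x hx
    have h10 : (A T 1).card = 1 := by omega
    obtain ⟨s, hs⟩ := card_eq_one.1 h10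
    refine ⟨s, fun y hy => ?_⟩
    obtain ⟨s', hs', j, hj, hi⟩ := exists_start T 1 (by norm_num) y hy
    have e : s' = s := by rw [hs] at hs'; simpa using hs'
    subst e
    refine ⟨by omega, ?_⟩
    by_contra hcon
    have hsub : (range (j + 1)).image (fun i : ℕ => s' + (i : ℤ)) ⊆ T := by
      intro z hz
      obtain ⟨i, hi', rfl⟩ := mem_image.1 hz
      have := hi i (by simpa [Nat.lt_succ_iff] using hi')
      simpa using this
    have hc := card_le_card hsub
    rw [card_image_of_injective _ (fun a b hab => by simpa using hab), card_range, hT] at hc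
    omega
  · push Not at h8
    have h9 := prod_le T h8
    rw [hT] at h9
    exfalso
    have h10 : (A T 1).card ≤ 9 := by omega
    have h11 : (A T 8).card ≤ 9 - (A T 1).card := by omega
    have h12 : (A T 1).card * (A T 8).card ≤ (A T 1).card * (9 - (A T 1).card) :=
      Nat.mul_le_mul_left _ h11
    generalize (A T 1).card = a at *
    interval_cases a <;> omega

/-- a set of 16 integers in an interval of length 21 has more than 8 starting points -/
lemma small (Q : Finset ℤ) (hQ : Q.card = 16) (s : ℤ) (hs : ∀ x ∈ Q, s ≤ x ∧ x ≤ s + 20)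
    (h : (A Q 1).card + (A Q 8).card ≤ 8) : False := by
  have hne : Q.Nonempty := by rw [← card_pos]; omega
  obtain ⟨x0, hx0⟩ := hne
  have hpos : 1 ≤ (A Q 1).card := by
    obtain ⟨s, hs, -⟩ := exists_start Q 1 (by norm_num) x0 hx0
    exact card_pos.2 ⟨s, hs⟩
  by_cases h8 : ∃ x : ℤ, ∀ i : ℤ, 0 ≤ i → i < 8 → x + i ∈ Q
  · obtain ⟨x, hx⟩ := h8
    have h9 := eight Q x hx
    omega
  · push Not at h8
    have h9 := prod_le Q h8
    rw [hQ] at h9
    have h1 : ∀ x : Q, ∃ t ∈ A Q 8, ∃ j : ℕ, (x : ℤ) = t + 8 * j := by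
      intro x
      obtain ⟨t, ht, j, hj, -⟩ := exists_start Q 8 (by norm_num) x x.2
      exact ⟨t, ht, j, hj⟩
    choose t ht j hj using h1
    have h10 : Q.attach.card ≤ 3 * (A Q 8).card := by
      refine card_le_mul_card_image_of_maps_to (f := t) (fun x _ => ht x) 3 ?_
      intro b hb
      have : 3 = (range 3).card := by simp
      rw [this]
      refine card_le_card_of_injOn (fun x => ((x : ℤ) - s).toNat / 8) ?_ ?_
      · intro x hx
        have := hs x x.2
        simp only [coe_range, Set.mem_Iio]
        omega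
      · intro x hx y hy hxy
        simp only [coe_filter, mem_attach, true_and, Set.mem_ofPred_eq] at hx hy
        have hx1 := hj x
        have hy1 := hj y
        rw [hx] at hx1
        rw [hy] at hy1
        have hx2 := hs x x.2
        have hy2 := hs y y.2
        simp only at hxy
        apply Subtype.ext
        omega
    rw [card_attach, hQ] at h10
    have h11 : (A Q 8).card ≤ 8 - (A Q 1).card := by omega
    have h12 : (A Q 1).card * (A Q 8).card ≤ (A Q 1).card * (8 - (A Q 1).card) :=
      Nat.mul_le_mul_left _ h11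
    have h13 : (A Q 1).card ≤ 2 := by omega
    generalize (A Q 1).card = a at *
    interval_cases a <;> omega

/-- as many runs end as start -/
lemma ends_eq (T : Finset ℤ) (k : ℤ) :
    (T.filter (fun x => x + k ∉ T)).card = (A T k).card := by
  have h1 : (T.filter (fun x => x + k ∈ T)).card = (T.filter (fun x => x - k ∈ T)).card := by
    refine card_bij (fun x _ => x + k) ?_ ?_ ?_
    · intro x hx
      rw [mem_filter] at hx ⊢
      refine ⟨hx.2, ?_⟩
      simpa using hx.1
    · intro x _ y _ h
      simpa using h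
    · intro y hy
      rw [mem_filter] at hy
      refine ⟨y - k, ?_, by ring⟩
      rw [mem_filter]
      exact ⟨hy.2, by simpa using hy.1⟩
  have h2 := card_filter_add_card_filter_not (s := T) (fun x => x + k ∈ T)
  have h3 := card_filter_add_card_filter_not (s := T) (fun x => x - k ∈ T)
  unfold A
  omega

end Pool.Agent.U444.Nest
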